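import Mathlib
import Pool.Agent.Y826.Z.Defs

/-! Project Y826/Z, job PH: additive characters, the Chinese remainder theorem for exponential sums. -/

open Finset

namespace Pool.Agent.Y870.Z

open Pool.Agent.Y826.Z

theorem ec_eq (q : ℕ) [NeZero q] (x : ZMod q) : ec q x = ZMod.stdAddChar x := by
  conv_rhs => rw [← ZMod.natCast_zmod_val x]
  have h := ZMod.stdAddChar_coe (N := q) (x.val : ℤ)
  rw [Int.cast_natCast] at h
  rw [h, ec]
  congr 1
  push_cast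
  ring

theorem ec_int (q : ℕ) [NeZero q] (x : ℤ) :
    ec q (x : ZMod q) = Complex.exp (2 * Real.pi * Complex.I * x / q) := by
  rw [ec_eq, ZMod.stdAddChar_coe]

theorem ec_add (q : ℕ) [NeZero q] (x y : ZMod q) : ec q (x + y) = ec q x * ec q y := by
  rw [ec_eq, ec_eq, ec_eq, AddChar.map_add_eq_mul]

theorem ec_zero (q : ℕ) [NeZero q] : ec q 0 = 1 := by
  rw [ec_eq, AddChar.map_zero_eq_one]

theorem ec_norm (q : ℕ) [NeZero q] (x : ZMod q) : ‖ec q x‖ = 1 := by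
  rw [ec, show (2 * Real.pi * Complex.I * (((x.val : ℝ) / (q : ℝ) : ℝ) : ℂ) : ℂ) =
    ((2 * Real.pi * ((x.val : ℝ) / (q : ℝ)) : ℝ) : ℂ) * Complex.I by push_cast; ring]
  exact Complex.norm_exp_ofReal_mul_I _

/-- CRT for the characters -/
theorem ec_crt (q1 q2 : ℕ) [NeZero q1] [NeZero q2] [NeZero (q1 * q2)] (hc : Nat.Coprime q1 q2) (j : ℤ) :
    ec (q1 * q2) (j : ZMod (q1 * q2)) =
      ec q1 ((j : ZMod q1) * (q2 : ZMod q1)⁻¹) * ec q2 ((j : ZMod q2) * (q1 : ZMod q2)⁻¹) := by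
  have hb : (q1 : ℤ) * Nat.gcdA q1 q2 + q2 * Nat.gcdB q1 q2 = 1 := by
    rw [← Nat.gcd_eq_gcd_ab, Nat.coprime_iff_gcd_eq_one.1 hc, Nat.cast_one]
  set β := Nat.gcdA q1 q2
  set α := Nat.gcdB q1 q2
  have e1 : (q2 : ZMod q1)⁻¹ = ((α : ℤ) : ZMod q1) := by
    have h1 : ((q2 : ℕ) : ZMod q1) * ((q2 : ℕ) : ZMod q1)⁻¹ = 1 := ZMod.coe_mul_inv_eq_one _ hc.symm
    have h2 : ((q2 : ℕ) : ZMod q1) * ((α : ℤ) : ZMod q1) = 1 := by
      have := congrArg (fun z : ℤ => (z : ZMod q1)) hb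
      simpa using this
    calc (q2 : ZMod q1)⁻¹ = ((q2 : ℕ) : ZMod q1)⁻¹ * (((q2 : ℕ) : ZMod q1) * ((α : ℤ) : ZMod q1)) := by
          rw [h2, mul_one]
      _ = (((q2 : ℕ) : ZMod q1) * ((q2 : ℕ) : ZMod q1)⁻¹) * ((α : ℤ) : ZMod q1) := by ring
      _ = _ := by rw [h1, one_mul]
  have e2 : (q1 : ZMod q2)⁻¹ = ((β : ℤ) : ZMod q2) := by
    have h1 : ((q1 : ℕ) : ZMod q2) * ((q1 : ℕ) : ZMod q2)⁻¹ = 1 := ZMod.coe_mul_inv_eq_one _ hc
    have h2 : ((q1 : ℕ) : ZMod q2) * ((β : ℤ) : ZMod q2) = 1 := by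
      have := congrArg (fun z : ℤ => (z : ZMod q2)) hb
      simpa using this
    calc (q1 : ZMod q2)⁻¹ = ((q1 : ℕ) : ZMod q2)⁻¹ * (((q1 : ℕ) : ZMod q2) * ((β : ℤ) : ZMod q2)) := by
          rw [h2, mul_one]
      _ = (((q1 : ℕ) : ZMod q2) * ((q1 : ℕ) : ZMod q2)⁻¹) * ((β : ℤ) : ZMod q2) := by ring
      _ = _ := by rw [h1, one_mul]
  rw [e1, e2, ← Int.cast_mul, ← Int.cast_mul, ec_int, ec_int, ec_int, ← Complex.exp_add]
  congr 1
  have n1 : (q1 : ℂ) ≠ 0 := by exact_mod_cast NeZero.ne q1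
  have n2 : (q2 : ℂ) ≠ 0 := by exact_mod_cast NeZero.ne q2
  have h3 : (q1 : ℂ) * β + q2 * α = 1 := by exact_mod_cast hb
  push_cast
  field_simp
  linear_combination (-(j : ℂ)) * h3

theorem per {α : Type*} {q : ℕ} (f : ℤ → α) (hf : ∀ m, f (m + q) = f m) {x y : ℤ} (h : (q : ℤ) ∣ x - y) :
    f x = f y := by
  obtain ⟨k, hk⟩ := h
  have h1 : Function.Periodic f (q : ℤ) := hf
  have h2 := h1.int_mul k y
  rw [← h2]
  congr 1
  linear_combination hk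

theorem per_mod {α : Type*} {q : ℕ} (f : ℤ → α) (hf : ∀ m, f (m + q) = f m) (m : ℕ) :
    f ((m % q : ℕ) : ℤ) = f m := by
  refine per f hf ?_
  rw [← neg_sub, dvd_neg]
  push_cast
  exact Int.dvd_self_sub_emod

/-- sums over a complete residue system, CRT -/
theorem sum_crt (q1 q2 : ℕ) (h1 : 0 < q1) (h2 : 0 < q2) (hc : Nat.Coprime q1 q2) {R : Type*} [CommSemiring R]
    (f g : ℤ → R) (hf : ∀ m, f (m + q1) = f m) (hg : ∀ m, g (m + q2) = g m) :
    ∑ m ∈ range (q1 * q2), f m * g m = (∑ m ∈ range q1, f m) * ∑ m ∈ range q2, g m := by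
  have hf' : ∀ (m : ℕ), f ((m % q1 : ℕ) : ℤ) = f m := fun m => per_mod f hf m
  have hg' : ∀ (m : ℕ), g ((m % q2 : ℕ) : ℤ) = g m := fun m => per_mod g hg m
  rw [Finset.sum_mul_sum, ← Finset.sum_product']
  refine Finset.sum_nbij' (fun m => (m % q1, m % q2)) (fun p => (Nat.chineseRemainder hc p.1 p.2 : ℕ))
    ?_ ?_ ?_ ?_ ?_
  · intro m _
    simp only [mem_product, mem_range]
    exact ⟨Nat.mod_lt _ h1, Nat.mod_lt _ h2⟩
  · intro p _
    rw [mem_range]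
    exact Nat.chineseRemainder_lt_mul hc p.1 p.2 h1.ne' h2.ne'
  · intro m hm
    rw [mem_range] at hm
    have h3 := (Nat.chineseRemainder hc (m % q1) (m % q2)).2
    have h4 : ((Nat.chineseRemainder hc (m % q1) (m % q2) : ℕ)) ≡ m [MOD (q1 * q2)] := by
      rw [← Nat.modEq_and_modEq_iff_modEq_mul hc]
      exact ⟨h3.1.trans (Nat.mod_modEq _ _), h3.2.trans (Nat.mod_modEq _ _)⟩
    have h5 := Nat.chineseRemainder_lt_mul hc (m % q1) (m % q2) h1.ne' h2.ne'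
    exact Nat.ModEq.eq_of_lt_of_lt h4 h5 hm
  · intro p hp
    simp only [mem_product, mem_range] at hp
    have h3 := (Nat.chineseRemainder hc p.1 p.2).2
    have e1 : (Nat.chineseRemainder hc p.1 p.2 : ℕ) % q1 = p.1 := by
      rw [h3.1, Nat.mod_eq_of_lt hp.1]
    have e2 : (Nat.chineseRemainder hc p.1 p.2 : ℕ) % q2 = p.2 := by
      rw [h3.2, Nat.mod_eq_of_lt hp.2]
    exact Prod.ext e1 e2
  · intro m _
    simp only
    rw [hf', hg']

theorem sum_crt_char (q1 q2 : ℕ) (h1 : 0 < q1) (h2 : 0 < q2) (hc : Nat.Coprime q1 q2) (f g : ℤ → ℂ)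
    (hf : ∀ m, f (m + q1) = f m) (hg : ∀ m, g (m + q2) = g m) (k : ℤ) :
    ∑ m ∈ range (q1 * q2), f m * g m * ec (q1 * q2) ((k : ZMod (q1 * q2)) * ((m : ℕ) : ZMod (q1 * q2))) =
      (∑ m ∈ range q1, f m * ec q1 ((k : ZMod q1) * (q2 : ZMod q1)⁻¹ * ((m : ℕ) : ZMod q1))) *
      ∑ m ∈ range q2, g m * ec q2 ((k : ZMod q2) * (q1 : ZMod q2)⁻¹ * ((m : ℕ) : ZMod q2)) := by
  have : NeZero q1 := ⟨h1.ne'⟩
  have : NeZero q2 := ⟨h2.ne'⟩
  have h3 := sum_crt q1 q2 h1 h2 hc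
    (fun m => f m * ec q1 ((k : ZMod q1) * (q2 : ZMod q1)⁻¹ * ((m : ℤ) : ZMod q1)))
    (fun m => g m * ec q2 ((k : ZMod q2) * (q1 : ZMod q2)⁻¹ * ((m : ℤ) : ZMod q2)))
    (fun m => by simp [hf]) (fun m => by simp [hg])
  simp only [Int.cast_natCast] at h3
  rw [← h3]
  refine Finset.sum_congr rfl fun m _ => ?_
  have h4 := ec_crt q1 q2 hc (k * m)
  push_cast at h4
  rw [h4, show (k : ZMod q1) * (m : ZMod q1) * (q2 : ZMod q1)⁻¹ = (k : ZMod q1) * (q2 : ZMod q1)⁻¹ * (m : ZMod q1) by ring,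
    show (k : ZMod q2) * (m : ZMod q2) * (q1 : ZMod q2)⁻¹ = (k : ZMod q2) * (q1 : ZMod q2)⁻¹ * (m : ZMod q2) by ring]
  ring

theorem inv_unique {n : ℕ} (a : ℕ) (h : a.Coprime n) (x y : ZMod n) (hxy : x * a = y) :
    x = y * (a : ZMod n)⁻¹ := by
  rw [← hxy, mul_assoc, ZMod.coe_mul_inv_eq_one a h, mul_one]

theorem sum_crt_primes (P : Finset ℕ) (hP : ∀ p ∈ P, p.Prime) (q1 : ℕ) (h1 : 0 < q1)
    (hc : ∀ p ∈ P, Nat.Coprime q1 p) (G : ℤ → ℂ) (hG : ∀ m, G (m + q1) = G m) (f : ℕ → ℤ → ℂ)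
    (hf : ∀ p ∈ P, ∀ m, f p (m + p) = f p m) : ∀ (k : ℤ),
    ∑ m ∈ range (q1 * ∏ p ∈ P, p), G m * (∏ p ∈ P, f p m) *
        ec (q1 * ∏ p ∈ P, p) ((k : ZMod (q1 * ∏ p ∈ P, p)) * ((m : ℕ) : ZMod (q1 * ∏ p ∈ P, p))) =
    (∑ m ∈ range q1, G m * ec q1 ((k : ZMod q1) * ((∏ p ∈ P, p : ℕ) : ZMod q1)⁻¹ * ((m : ℕ) : ZMod q1))) *
    ∏ p ∈ P, ∑ m ∈ range p, f p m *
      ec p ((k : ZMod p) * ((q1 * (∏ p ∈ P, p) / p : ℕ) : ZMod p)⁻¹ * ((m : ℕ) : ZMod p)) := by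
  classical
  induction P using Finset.induction_on with
  | empty =>
    intro k
    rw [Finset.prod_empty, mul_one, Finset.prod_empty, mul_one, Nat.cast_one, ZMod.inv_one, mul_one]
    simp only [Finset.prod_empty, mul_one]
  | insert p0 P hp0 ih =>
    intro k
    have hP' : ∀ p ∈ P, p.Prime := fun p hp => hP p (mem_insert_of_mem hp)
    have hc' : ∀ p ∈ P, Nat.Coprime q1 p := fun p hp => hc p (mem_insert_of_mem hp)
    have hf' : ∀ p ∈ P, ∀ m, f p (m + p) = f p m := fun p hp => hf p (mem_insert_of_mem hp)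
    have ih' := ih hP' hc' hf'
    have hp0P := hP p0 (mem_insert_self _ _)
    have hD : 0 < ∏ p ∈ P, p := Finset.prod_pos fun p hp => (hP' p hp).pos
    set D := ∏ p ∈ P, p with hDdef
    have hcD : Nat.Coprime D p0 := Nat.Coprime.prod_left fun p hp =>
      (Nat.coprime_primes (hP' p hp) hp0P).2 (fun h => hp0 (h ▸ hp))
    have hcq : Nat.Coprime (q1 * D) p0 := Nat.Coprime.mul_left (hc p0 (mem_insert_self _ _)) hcD
    have e0 : q1 * ∏ p ∈ insert p0 P, p = (q1 * D) * p0 := by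
      rw [Finset.prod_insert hp0]; ring
    rw [e0]
    have hper : ∀ m, G (m + ((q1 * D : ℕ) : ℤ)) * (∏ p ∈ P, f p (m + ((q1 * D : ℕ) : ℤ))) =
        G m * (∏ p ∈ P, f p m) := by
      intro m
      congr 1
      · exact per G hG (by push_cast; exact ⟨D, by ring⟩)
      · refine Finset.prod_congr rfl fun p hp => ?_
        refine per (f p) (hf' p hp) ?_
        have : (p : ℤ) ∣ ((q1 * D : ℕ) : ℤ) :=
          Int.natCast_dvd_natCast.2 (Dvd.dvd.mul_left (Finset.dvd_prod_of_mem _ hp) _)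
        simpa using this
    have h3 := sum_crt_char (q1 * D) p0 (Nat.mul_pos h1 hD) hp0P.pos hcq
      (fun m => G m * (∏ p ∈ P, f p m)) (f p0) hper (hf p0 (mem_insert_self _ _)) k
    have e1 : ∀ m : ℕ, G m * (∏ p ∈ insert p0 P, f p m) = G m * (∏ p ∈ P, f p m) * f p0 m := by
      intro m
      rw [Finset.prod_insert hp0]; ring
    simp only [e1]
    rw [h3]
    obtain ⟨k', hk'⟩ := ZMod.intCast_surjective ((k : ZMod (q1 * D)) * (p0 : ZMod (q1 * D))⁻¹)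
    have hk1 : ((k' * p0 : ℤ) : ZMod (q1 * D)) = k := by
      push_cast
      rw [hk', mul_assoc, mul_comm ((p0 : ZMod (q1 * D))⁻¹), ZMod.coe_mul_inv_eq_one p0 hcq.symm, mul_one]
    have hk2 : ∀ n : ℕ, n ∣ q1 * D → (k' : ZMod n) * (p0 : ZMod n) = k := by
      intro n hn
      rw [ZMod.intCast_eq_intCast_iff_dvd_sub] at hk1
      have h5 : ((k' * p0 : ℤ) : ZMod n) = (k : ZMod n) := by
        rw [ZMod.intCast_eq_intCast_iff_dvd_sub]
        exact (Int.natCast_dvd_natCast.2 hn).trans hk1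
      simpa using h5
    have h4 := ih' k'
    rw [← hk', h4]
    have e2 : (k' : ZMod q1) * (D : ZMod q1)⁻¹ = (k : ZMod q1) * ((∏ p ∈ insert p0 P, p : ℕ) : ZMod q1)⁻¹ := by
      have hcop : Nat.Coprime (∏ p ∈ insert p0 P, p) q1 :=
        Nat.Coprime.prod_left fun p hp => (hc p hp).symm
      refine inv_unique _ hcop _ _ ?_
      rw [Finset.prod_insert hp0]
      have hcD1 : Nat.Coprime D q1 := Nat.Coprime.prod_left fun p hp => (hc' p hp).symm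
      have h6 := ZMod.coe_mul_inv_eq_one D hcD1
      rw [Nat.cast_mul, ← hDdef, ← hk2 q1 (dvd_mul_right _ _)]
      calc (k' : ZMod q1) * (D : ZMod q1)⁻¹ * ((p0 : ZMod q1) * (D : ZMod q1)) =
          (k' : ZMod q1) * (p0 : ZMod q1) * ((D : ZMod q1) * (D : ZMod q1)⁻¹) := by ring
        _ = _ := by rw [h6, mul_one]
    have e3 : ∀ p ∈ P, (k' : ZMod p) * ((q1 * D / p : ℕ) : ZMod p)⁻¹ =
        (k : ZMod p) * ((q1 * D * p0 / p : ℕ) : ZMod p)⁻¹ := by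
      intro p hp
      have hpp := hP' p hp
      have hpD : p ∣ D := Finset.dvd_prod_of_mem _ hp
      have hcop1 : Nat.Coprime (q1 * D / p) p := by
        rw [Nat.mul_div_assoc _ hpD]
        refine Nat.Coprime.mul_left (hc' p hp) ?_
        have : D / p = ∏ x ∈ P.erase p, x := by
          rw [hDdef, ← Finset.mul_prod_erase P _ hp, Nat.mul_div_cancel_left _ hpp.pos]
        rw [this]
        exact Nat.Coprime.prod_left fun x hx =>
          (Nat.coprime_primes (hP' x (Finset.mem_of_mem_erase hx)) hpp).2 (Finset.ne_of_mem_erase hx)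
      have e5 : q1 * D * p0 / p = (q1 * D / p) * p0 := by
        rw [mul_comm (q1 * D) p0, Nat.mul_div_assoc _ (Dvd.dvd.mul_left hpD _), mul_comm]
      have hcop2 : Nat.Coprime (q1 * D * p0 / p) p := by
        rw [e5]
        exact Nat.Coprime.mul_left hcop1 ((Nat.coprime_primes hp0P hpp).2 (fun h => hp0 (h ▸ hp)))
      refine inv_unique _ hcop2 _ _ ?_
      rw [e5, Nat.cast_mul, ← hk2 p (Dvd.dvd.mul_left hpD _)]
      have h6 := ZMod.coe_mul_inv_eq_one (q1 * D / p) hcop1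
      calc (k' : ZMod p) * ((q1 * D / p : ℕ) : ZMod p)⁻¹ * (((q1 * D / p : ℕ) : ZMod p) * (p0 : ZMod p)) =
          (k' : ZMod p) * (p0 : ZMod p) * (((q1 * D / p : ℕ) : ZMod p) * ((q1 * D / p : ℕ) : ZMod p)⁻¹) := by ring
        _ = _ := by rw [h6, mul_one]
    have e4 : q1 * D * p0 / p0 = q1 * D := Nat.mul_div_cancel _ hp0P.pos
    have e6 := Finset.prod_insert (s := P) (a := p0) (f := fun p => ∑ m ∈ range p, f p m *
      ec p ((k : ZMod p) * ((q1 * D * p0 / p : ℕ) : ZMod p)⁻¹ * ((m : ℕ) : ZMod p))) hp0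
    beta_reduce at e6
    have e7 : ∏ p ∈ P, ∑ m ∈ range p, f p m *
        ec p ((k' : ZMod p) * ((q1 * D / p : ℕ) : ZMod p)⁻¹ * ((m : ℕ) : ZMod p)) =
        ∏ p ∈ P, ∑ m ∈ range p, f p m *
        ec p ((k : ZMod p) * ((q1 * D * p0 / p : ℕ) : ZMod p)⁻¹ * ((m : ℕ) : ZMod p)) := by
      refine Finset.prod_congr rfl fun p hp => ?_
      rw [e3 p hp]
    rw [e6, e7, e2, e4]
    ring

end Pool.Agent.Y870.Z
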