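import Mathlib
import Pool.Agent.Y826.Z.Defs
import Pool.Agent.Y870.Z.Ec

/-! Project Y826/Z, job PH: finite Fourier expansion. -/

open Finset

namespace Pool.Agent.Y870.Z

open Pool.Agent.Y826.Z

/-- all frequencies -/
noncomputable def freq0 (q : ℕ) : Finset ℤ :=
  (Ioc (-(q : ℤ)) q).filter (fun k => -(q : ℤ) < 2 * k ∧ 2 * k ≤ q)

theorem freq0_eq (q : ℕ) (hq : 0 < q) : freq0 q = insert 0 (freq q) := by
  ext k
  simp only [freq0, freq, mem_filter, mem_insert, mem_Ioc, ne_eq]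
  constructor
  · rintro ⟨h1, h2, h3⟩
    by_cases h : k = 0
    · exact Or.inl h
    · exact Or.inr ⟨h1, h, h2, h3⟩
  · rintro (h | ⟨h1, h, h2, h3⟩)
    · subst h
      omega
    · exact ⟨h1, h2, h3⟩

theorem zero_notin_freq (q : ℕ) : (0 : ℤ) ∉ freq q := by
  simp [freq]

theorem sum_freq0 (q : ℕ) (hq : 0 < q) (g : ℤ → ℂ) (hg : ∀ m, g (m + q) = g m) :
    ∑ k ∈ freq0 q, g k = ∑ j ∈ range q, g j := by
  refine Finset.sum_nbij' (fun k => (k % q).toNat) (fun j => if 2 * j ≤ q then (j : ℤ) else (j : ℤ) - q)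
    ?_ ?_ ?_ ?_ ?_
  · intro k _
    rw [mem_range]
    have h1 := Int.emod_nonneg k (show (q : ℤ) ≠ 0 by omega)
    have h2 := Int.emod_lt_of_pos k (show (0 : ℤ) < q by omega)
    omega
  · intro j hj
    rw [mem_range] at hj
    simp only [freq0, mem_filter, mem_Ioc]
    split_ifs with h <;> omega
  · intro k hk
    simp only [freq0, mem_filter, mem_Ioc] at hk
    by_cases hk0 : 0 ≤ k
    · have h1 : k % q = k := Int.emod_eq_of_lt hk0 (by omega)
      simp only [h1]
      split_ifs with h <;> omega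
    · have h1 : k % q = k + q := by
        rw [← Int.add_emod_right, Int.emod_eq_of_lt (by omega) (by omega)]
      simp only [h1]
      split_ifs with h <;> omega
  · intro j hj
    rw [mem_range] at hj
    split_ifs with h
    · rw [Int.emod_eq_of_lt (by omega) (by omega)]
      simp
    · have h1 : ((j : ℤ) - q) % q = j := by
        rw [← Int.add_emod_right, sub_add_cancel, Int.emod_eq_of_lt (by omega) (by omega)]
      rw [h1]
      simp
  · intro k _
    refine per g hg ?_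
    have h1 := Int.emod_nonneg k (show (q : ℤ) ≠ 0 by omega)
    rw [Int.toNat_of_nonneg h1]
    exact Int.dvd_self_sub_emod

theorem sum_range_zmod (q : ℕ) [NeZero q] (g : ZMod q → ℂ) :
    ∑ j ∈ range q, g ((j : ℕ) : ZMod q) = ∑ x : ZMod q, g x := by
  refine Finset.sum_nbij' (fun j => ((j : ℕ) : ZMod q)) (fun x => x.val) ?_ ?_ ?_ ?_ ?_
  · intro j _; exact mem_univ _
  · intro x _; rw [mem_range]; exact ZMod.val_lt x
  · intro j hj
    rw [mem_range] at hj
    exact ZMod.val_cast_of_lt hj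
  · intro x _
    exact ZMod.natCast_zmod_val x
  · intro j _; rfl

theorem orth (q : ℕ) (hq : 0 < q) (x : ℤ) :
    ∑ k ∈ freq0 q, ec q ((k : ZMod q) * (x : ZMod q)) = if (q : ℤ) ∣ x then (q : ℂ) else 0 := by
  have : NeZero q := ⟨hq.ne'⟩
  rw [sum_freq0 q hq (fun k => ec q ((k : ZMod q) * (x : ZMod q))) (fun m => by simp)]
  have h1 := sum_range_zmod q (fun k => ec q (k * (x : ZMod q)))
  simp only [Int.cast_natCast]
  rw [h1]
  simp only [ec_eq]
  have h2 := AddChar.sum_mulShift (x : ZMod q) (ZMod.isPrimitive_stdAddChar q)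
  rw [h2, ZMod.card]
  simp only [ZMod.intCast_zmod_eq_zero_iff_dvd, Nat.cast_ite, Nat.cast_zero]

theorem Ih_eq (M q : ℕ) (hq : 0 < q) (k : ℤ) :
    Ih M q k = (1 / (q : ℂ)) * ∑ m ∈ Ioc M (2 * M), ec q (-((k : ZMod q) * ((m : ℕ) : ZMod q))) := by
  have : NeZero q := ⟨hq.ne'⟩
  rw [Ih]
  congr 1
  refine Finset.sum_congr rfl fun m _ => ?_
  have h1 : -((k : ZMod q) * ((m : ℕ) : ZMod q)) = ((-(k * m) : ℤ) : ZMod q) := by push_cast; ring
  rw [h1, ec_int]
  congr 1
  push_cast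
  ring

theorem fourier (q M : ℕ) (hq : 0 < q) (F : ℤ → ℂ) (hF : ∀ m, F (m + q) = F m) :
    ∑ m ∈ Ioc M (2 * M), F m = ∑ k ∈ freq0 q, Ih M q k *
      ∑ j ∈ range q, F j * ec q ((k : ZMod q) * ((j : ℕ) : ZMod q)) := by
  have : NeZero q := ⟨hq.ne'⟩
  have hq0 : (q : ℂ) ≠ 0 := by exact_mod_cast hq.ne'
  have h1 : ∀ m : ℕ, F m = (1 / (q : ℂ)) * ∑ k ∈ freq0 q, ∑ j ∈ range q,
      ec q (-((k : ZMod q) * ((m : ℕ) : ZMod q))) * (F j * ec q ((k : ZMod q) * ((j : ℕ) : ZMod q))) := by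
    intro m
    rw [Finset.sum_comm]
    have h2 : ∀ j ∈ range q, ∑ k ∈ freq0 q,
        ec q (-((k : ZMod q) * ((m : ℕ) : ZMod q))) * (F j * ec q ((k : ZMod q) * ((j : ℕ) : ZMod q))) =
        if j = m % q then (q : ℂ) * F m else 0 := by
      intro j hj
      rw [mem_range] at hj
      have h3 : ∀ k ∈ freq0 q,
        ec q (-((k : ZMod q) * ((m : ℕ) : ZMod q))) * (F j * ec q ((k : ZMod q) * ((j : ℕ) : ZMod q))) =
        F j * ec q ((k : ZMod q) * (((j - m : ℤ)) : ZMod q)) := by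
        intro k _
        have h4 : (k : ZMod q) * (((j - m : ℤ)) : ZMod q) =
            -((k : ZMod q) * ((m : ℕ) : ZMod q)) + (k : ZMod q) * ((j : ℕ) : ZMod q) := by
          push_cast; ring
        rw [h4, ec_add]
        ring
      rw [Finset.sum_congr rfl h3, ← Finset.mul_sum, orth q hq]
      by_cases hjm : j = m % q
      · rw [if_pos hjm, if_pos, mul_comm]
        · congr 1
          rw [hjm]
          exact per_mod F hF m
        · rw [hjm, ← neg_sub, dvd_neg]
          push_cast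
          exact Int.dvd_self_sub_emod
      · rw [if_neg hjm, if_neg, mul_zero]
        intro h5
        apply hjm
        have h6 : (m : ℤ) % q = (j : ℤ) % q := Int.modEq_iff_dvd.2 h5
        rw [Int.emod_eq_of_lt (by omega : (0 : ℤ) ≤ j) (by omega)] at h6
        omega
    rw [Finset.sum_congr rfl h2, Finset.sum_ite_eq' (range q) (m % q) (fun _ => (q : ℂ) * F m), if_pos (mem_range.2 (Nat.mod_lt _ hq))]
    field_simp
  calc ∑ m ∈ Ioc M (2 * M), F m = ∑ m ∈ Ioc M (2 * M), (1 / (q : ℂ)) * ∑ k ∈ freq0 q, ∑ j ∈ range q,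
      ec q (-((k : ZMod q) * ((m : ℕ) : ZMod q))) * (F j * ec q ((k : ZMod q) * ((j : ℕ) : ZMod q))) :=
        Finset.sum_congr rfl fun m _ => h1 m
    _ = _ := by
      rw [← Finset.mul_sum, Finset.sum_comm, Finset.mul_sum]
      refine Finset.sum_congr rfl fun k _ => ?_
      rw [Ih_eq M q hq, mul_assoc, Finset.sum_mul]
      congr 1
      refine Finset.sum_congr rfl fun m _ => ?_
      rw [Finset.mul_sum]

end Pool.Agent.Y870.Z
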