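import Mathlib
import Pool.Agent.Y826.Z.Defs
import Pool.Agent.Y870.Z.Ma

/-! Project Y826/Z, job PH: periodicity, means and norms. -/

open Finset

namespace Pool.Agent.Y870.Z

open Pool.Agent.Y826.Z

section main
variable {K : ℕ} (h : Fin K → ℤ)

theorem Cd_per (u : Fin K → ℕ) {x y : ℤ} (hxy : ((Pr u : ℕ) : ℤ) ∣ x - y) :
    iC (∀ j, (u j : ℤ) ∣ x + h j) = iC (∀ j, (u j : ℤ) ∣ y + h j) := by
  apply iC_congr
  refine forall_congr' fun j => ?_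
  have h1 : (u j : ℤ) ∣ x - y := (Int.natCast_dvd_natCast.2 (dvd_Pr u j)).trans hxy
  constructor
  · intro h2
    have h3 := dvd_sub h2 h1
    have e : x + h j - (x - y) = y + h j := by ring
    rwa [e] at h3
  · intro h2
    have h3 := dvd_add h2 h1
    have e : y + h j + (x - y) = x + h j := by ring
    rwa [e] at h3

theorem cop_per (V : ℕ) {x y : ℤ} (hxy : (V : ℤ) ∣ x - y) :
    iC (IsCoprime x (V : ℤ)) = iC (IsCoprime y (V : ℤ)) := by
  apply iC_congr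
  obtain ⟨c, hc⟩ := hxy
  have h4 : x = y + (V : ℤ) * c := by linarith
  rw [h4]
  exact IsCoprime.add_mul_left_left_iff

theorem res_per (W b : ℕ) {x y : ℤ} (hxy : (W : ℤ) ∣ x - y) :
    iC ((x : ZMod W) = (b : ZMod W)) = iC ((y : ZMod W) = (b : ZMod W)) := by
  have h1 : (x : ZMod W) = (y : ZMod W) := by
    rw [ZMod.intCast_eq_intCast_iff_dvd_sub, ← neg_sub, dvd_neg]
    exact hxy
  rw [h1]

theorem loc_per (p : ℕ) (c : ZMod p) {x y : ℤ} (hxy : (p : ℤ) ∣ x - y) : loc p c x = loc p c y := by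
  unfold loc
  have h1 : (x : ZMod p) = (y : ZMod p) := by
    rw [ZMod.intCast_eq_intCast_iff_dvd_sub, ← neg_sub, dvd_neg]
    exact hxy
  rw [h1]

theorem vf_per (U : ℕ) (o : Option (Rs U)) (v : Fin K → ℕ) {x y : ℤ} (hxy : ((Pr v : ℕ) : ℤ) ∣ x - y) :
    vf h U o v x = vf h U o v y := by
  match o with
  | none => exact Cd_per h v hxy
  | some _ =>
    simp only [vf]
    rw [cop_per (Pr v) hxy]

theorem DZ_per (u v : Fin K → ℕ) {x y : ℤ} (hxy : ((Pr u * Pr v : ℕ) : ℤ) ∣ x - y) :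
    DZ h u v x = DZ h u v y := by
  have h1 : ((Pr u : ℕ) : ℤ) ∣ x - y := (Int.natCast_dvd_natCast.2 (dvd_mul_right _ _)).trans hxy
  have h2 : ((Pr v : ℕ) : ℤ) ∣ x - y := (Int.natCast_dvd_natCast.2 (dvd_mul_left _ _)).trans hxy
  unfold DZ
  rw [Cd_per h u h1, Cd_per h v h2, cop_per (Pr u * Pr v) hxy]

theorem prod_pf {n : ℕ} (hn : Squarefree n) : ∏ p ∈ n.primeFactors, p = n :=
  Nat.prod_primeFactors_of_squarefree hn

theorem Cd_sum (W b : ℕ) (H : Hyp h W b) (u : Fin K → ℕ) (hu : Squarefree (Pr u)) (hW : (Pr u).Coprime W) (x : ℤ) :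
    ∑ m ∈ range (Pr u), iC (∀ j, (u j : ℤ) ∣ (m : ℤ) * x + h j) = iC (IsCoprime x ((Pr u : ℕ) : ℤ)) := by
  have h1 := sys_sum (Pr u).primeFactors (fun p hp => Nat.prime_of_mem_primeFactors hp) (cT h u)
    (fun p hp => cT_ne h u W b H hu hW (Nat.prime_of_mem_primeFactors hp) (Nat.dvd_of_mem_primeFactors hp)) x
  rw [prod_pf hu] at h1
  rw [iC_congr (cop_iff (Pr u) hu.ne_zero x), ← h1]
  refine Finset.sum_congr rfl fun m _ => ?_
  exact Cd_prod h u hu _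

theorem res_sum (W b : ℕ) (hW : Squarefree W) (hb : b.Coprime W) (x : ℤ) :
    ∑ m ∈ range W, iC ((((m : ℤ) * x : ℤ) : ZMod W) = (b : ZMod W)) = iC (IsCoprime x (W : ℤ)) := by
  have h1 := sys_sum W.primeFactors (fun p hp => Nat.prime_of_mem_primeFactors hp) (fun p => ((b : ℕ) : ZMod p))
    (fun p hp => by
      intro h0
      rw [ZMod.natCast_eq_zero_iff] at h0
      exact (Nat.prime_of_mem_primeFactors hp).one_lt.ne'
        (Nat.eq_one_of_dvd_coprimes hb h0 (Nat.dvd_of_mem_primeFactors hp))) x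
  rw [prod_pf hW] at h1
  rw [iC_congr (cop_iff W hW.ne_zero x), ← h1]
  refine Finset.sum_congr rfl fun m _ => ?_
  have h2 := res_prod W hW ((m : ℤ) * x) (b : ℤ)
  simp only [Int.cast_natCast] at h2
  exact h2

theorem vf_sum (W b : ℕ) (H : Hyp h W b) (U : ℕ) (o : Option (Rs U)) (v : Fin K → ℕ) (hv : Squarefree (Pr v))
    (hW : (Pr v).Coprime W) (x : ℤ) :
    ∑ m ∈ range (Pr v), vf h U o v ((m : ℤ) * x) = iC (IsCoprime x ((Pr v : ℕ) : ℤ)) := by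
  match o with
  | none => exact Cd_sum h W b H v hv hW x
  | some _ =>
    simp only [vf]
    rw [← Finset.mul_sum, cop_sum]
    have h0 : (Nat.totient (Pr v) : ℂ) ≠ 0 := by
      exact_mod_cast (Nat.totient_pos.2 (Pr_pos_of v hv)).ne'
    field_simp

theorem DZ_mean (W b : ℕ) (H : Hyp h W b) (u v : Fin K → ℕ) (hu : Squarefree (Pr u)) (hv : Squarefree (Pr v))
    (huv : (Pr u).Coprime (Pr v)) (hWu : (Pr u).Coprime W) (hWv : (Pr v).Coprime W) (x : ℤ) :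
    ∑ m ∈ range (Pr u * Pr v), DZ h u v ((m : ℤ) * x) = 0 := by
  unfold DZ
  rw [Finset.sum_sub_distrib, ← Finset.mul_sum, cop_sum]
  have h1 := sum_crt (Pr u) (Pr v) (Pr_pos_of u hu) (Pr_pos_of v hv) huv
    (fun m => iC (∀ j, (u j : ℤ) ∣ m * x + h j)) (fun m => iC (∀ j, (v j : ℤ) ∣ m * x + h j))
    (fun m => Cd_per h u ⟨x, by ring⟩) (fun m => Cd_per h v ⟨x, by ring⟩)
  rw [h1, Cd_sum h W b H u hu hWu, Cd_sum h W b H v hv hWv, ← iC_and]
  have h0 : (Nat.totient (Pr u * Pr v) : ℂ) ≠ 0 := by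
    exact_mod_cast (Nat.totient_pos.2 (Nat.mul_pos (Pr_pos_of u hu) (Pr_pos_of v hv))).ne'
  have h4 : iC (IsCoprime x ((Pr u * Pr v : ℕ) : ℤ)) =
      iC (IsCoprime x ((Pr u : ℕ) : ℤ) ∧ IsCoprime x ((Pr v : ℕ) : ℤ)) := by
    apply iC_congr
    rw [Nat.cast_mul]
    exact IsCoprime.mul_right_iff
  rw [h4]
  field_simp
  ring

theorem iC_norm_eq (P : Prop) : ((‖iC P‖ : ℝ) : ℂ) = iC P := by
  unfold iC; split_ifs <;> simp

theorem vf_norm_eq (U : ℕ) (o : Option (Rs U)) (v : Fin K → ℕ) (x : ℤ) :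
    ((‖vf h U o v x‖ : ℝ) : ℂ) = vf h U o v x := by
  match o with
  | none => exact iC_norm_eq _
  | some _ =>
    simp only [vf]
    rw [norm_mul]
    push_cast
    rw [iC_norm_eq]
    congr 1
    simp

theorem sum_norm_le {s : Finset ℕ} {f : ℕ → ℂ} (hf : ∀ m, ((‖f m‖ : ℝ) : ℂ) = f m) {Q : Prop}
    (hs : ∑ m ∈ s, f m = iC Q) : ∑ m ∈ s, ‖f m‖ ≤ 1 := by
  have h1 : (((∑ m ∈ s, ‖f m‖ : ℝ)) : ℂ) = iC Q := by
    push_cast
    rw [← hs]
    exact Finset.sum_congr rfl fun m _ => hf m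
  unfold iC at h1
  split_ifs at h1
  · have : ∑ m ∈ s, ‖f m‖ = 1 := by exact_mod_cast h1
    exact this.le
  · have : ∑ m ∈ s, ‖f m‖ = 0 := by exact_mod_cast h1
    rw [this]; exact zero_le_one

/-- the factors of modulus `W * Pr a * Pr v1 * Pr v2` -/
noncomputable def GG (W b : ℕ) (a : Fin K → ℕ) (U1 U2 : ℕ) (t : ℤ) (o1 : Option (Rs U1))
    (o2 : Option (Rs U2)) (v1 v2 : Fin K → ℕ) (x m : ℤ) : ℂ :=
  iC (((m * x : ℤ) : ZMod W) = (b : ZMod W)) * iC (∀ j, (a j : ℤ) ∣ m * x + h j) *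
    vf h U1 o1 v1 (m * x) * vf h U2 o2 v2 (m * (x + t))

theorem GG_per_m (W b : ℕ) (a : Fin K → ℕ) (U1 U2 : ℕ) (t : ℤ) (o1 : Option (Rs U1))
    (o2 : Option (Rs U2)) (v1 v2 : Fin K → ℕ) (x m : ℤ) :
    GG h W b a U1 U2 t o1 o2 v1 v2 x (m + ((W * Pr a * Pr v1 * Pr v2 : ℕ) : ℤ)) =
      GG h W b a U1 U2 t o1 o2 v1 v2 x m := by
  unfold GG
  congr 1
  · congr 1
    · congr 1
      · exact res_per W b ⟨Pr a * Pr v1 * Pr v2 * x, by push_cast; ring⟩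
      · exact Cd_per h a ⟨W * Pr v1 * Pr v2 * x, by push_cast; ring⟩
    · exact vf_per h U1 o1 v1 ⟨W * Pr a * Pr v2 * x, by push_cast; ring⟩
  · exact vf_per h U2 o2 v2 ⟨W * Pr a * Pr v1 * (x + t), by push_cast; ring⟩

theorem GG_per_x (W b : ℕ) (a : Fin K → ℕ) (U1 U2 : ℕ) (t : ℤ) (o1 : Option (Rs U1))
    (o2 : Option (Rs U2)) (v1 v2 : Fin K → ℕ) (x m : ℤ) :
    GG h W b a U1 U2 t o1 o2 v1 v2 (x + ((W * Pr a * Pr v1 * Pr v2 : ℕ) : ℤ)) m =
      GG h W b a U1 U2 t o1 o2 v1 v2 x m := by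
  unfold GG
  congr 1
  · congr 1
    · congr 1
      · exact res_per W b ⟨Pr a * Pr v1 * Pr v2 * m, by push_cast; ring⟩
      · exact Cd_per h a ⟨W * Pr v1 * Pr v2 * m, by push_cast; ring⟩
    · exact vf_per h U1 o1 v1 ⟨W * Pr a * Pr v2 * m, by push_cast; ring⟩
  · exact vf_per h U2 o2 v2 ⟨W * Pr a * Pr v1 * m, by push_cast; ring⟩

theorem GG_norm (W b : ℕ) (H : Hyp h W b) (a : Fin K → ℕ) (U1 U2 : ℕ) (t : ℤ) (o1 : Option (Rs U1))
    (o2 : Option (Rs U2)) (v1 v2 : Fin K → ℕ) (x : ℤ) (hs : Squarefree (W * Pr a * Pr v1 * Pr v2)) :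
    ∑ m ∈ range (W * Pr a * Pr v1 * Pr v2), ‖GG h W b a U1 U2 t o1 o2 v1 v2 x m‖ ≤ 1 := by
  have c3 : (W * Pr a * Pr v1).Coprime (Pr v2) := Nat.coprime_of_squarefree_mul hs
  have s3 : Squarefree (W * Pr a * Pr v1) := hs.squarefree_of_dvd (dvd_mul_right _ _)
  have c2 : (W * Pr a).Coprime (Pr v1) := Nat.coprime_of_squarefree_mul s3
  have s2 : Squarefree (W * Pr a) := s3.squarefree_of_dvd (dvd_mul_right _ _)
  have c1 : W.Coprime (Pr a) := Nat.coprime_of_squarefree_mul s2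
  have sa : Squarefree (Pr a) := s2.squarefree_of_dvd (dvd_mul_left _ _)
  have sv1 : Squarefree (Pr v1) := s3.squarefree_of_dvd (dvd_mul_left _ _)
  have sv2 : Squarefree (Pr v2) := hs.squarefree_of_dvd (dvd_mul_left _ _)
  have cW1 : (Pr v1).Coprime W := (Nat.Coprime.coprime_dvd_left (dvd_mul_right _ _) c2).symm
  have cW2 : (Pr v2).Coprime W :=
    (Nat.Coprime.coprime_dvd_left ((dvd_mul_right _ _).trans (dvd_mul_right _ _)) c3).symm
  have hW0 : 0 < W := H.wpos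
  have ha0 := Pr_pos_of a sa
  have h10 := Pr_pos_of v1 sv1
  have h20 := Pr_pos_of v2 sv2
  have e1 : ∑ m ∈ range (W * Pr a * Pr v1 * Pr v2), ‖GG h W b a U1 U2 t o1 o2 v1 v2 x m‖ =
      (((∑ m ∈ range W, ‖iC ((((m : ℤ) * x : ℤ) : ZMod W) = (b : ZMod W))‖) *
        ∑ m ∈ range (Pr a), ‖iC (∀ j, (a j : ℤ) ∣ (m : ℤ) * x + h j)‖) *
        ∑ m ∈ range (Pr v1), ‖vf h U1 o1 v1 ((m : ℤ) * x)‖) *
        ∑ m ∈ range (Pr v2), ‖vf h U2 o2 v2 ((m : ℤ) * (x + t))‖ := by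
    rw [← sum_crt W (Pr a) hW0 ha0 c1 (fun m => ‖iC (((m * x : ℤ) : ZMod W) = (b : ZMod W))‖)
      (fun m => ‖iC (∀ j, (a j : ℤ) ∣ m * x + h j)‖)
      (fun m => congrArg _ (res_per W b ⟨x, by push_cast; ring⟩))
      (fun m => congrArg _ (Cd_per h a ⟨x, by push_cast; ring⟩))]
    rw [← sum_crt (W * Pr a) (Pr v1) (Nat.mul_pos hW0 ha0) h10 c2
      (fun m => ‖iC (((m * x : ℤ) : ZMod W) = (b : ZMod W))‖ * ‖iC (∀ j, (a j : ℤ) ∣ m * x + h j)‖)
      (fun m => ‖vf h U1 o1 v1 (m * x)‖)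
      (fun m => by
        congr 1
        · exact congrArg _ (res_per W b ⟨Pr a * x, by push_cast; ring⟩)
        · exact congrArg _ (Cd_per h a ⟨W * x, by push_cast; ring⟩))
      (fun m => congrArg _ (vf_per h U1 o1 v1 ⟨x, by push_cast; ring⟩))]
    rw [← sum_crt (W * Pr a * Pr v1) (Pr v2) (Nat.mul_pos (Nat.mul_pos hW0 ha0) h10) h20 c3
      (fun m => ‖iC (((m * x : ℤ) : ZMod W) = (b : ZMod W))‖ * ‖iC (∀ j, (a j : ℤ) ∣ m * x + h j)‖ *
        ‖vf h U1 o1 v1 (m * x)‖)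
      (fun m => ‖vf h U2 o2 v2 (m * (x + t))‖)
      (fun m => by
        congr 1
        · congr 1
          · exact congrArg _ (res_per W b ⟨Pr a * Pr v1 * x, by push_cast; ring⟩)
          · exact congrArg _ (Cd_per h a ⟨W * Pr v1 * x, by push_cast; ring⟩)
        · exact congrArg _ (vf_per h U1 o1 v1 ⟨W * Pr a * x, by push_cast; ring⟩))
      (fun m => congrArg _ (vf_per h U2 o2 v2 ⟨x + t, by push_cast; ring⟩))]
    refine Finset.sum_congr rfl fun m _ => ?_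
    unfold GG
    rw [norm_mul, norm_mul, norm_mul]
  rw [e1]
  have b1 := sum_norm_le (fun m => iC_norm_eq _) (res_sum W b H.wsf H.bW x)
  have b2 := sum_norm_le (fun m => iC_norm_eq _) (Cd_sum h W b H a sa c1.symm x)
  have b3 := sum_norm_le (fun m => vf_norm_eq h U1 o1 v1 _) (vf_sum h W b H U1 o1 v1 sv1 cW1 x)
  have b4 := sum_norm_le (fun m => vf_norm_eq h U2 o2 v2 _) (vf_sum h W b H U2 o2 v2 sv2 cW2 (x + t))
  refine mul_le_one₀ (mul_le_one₀ (mul_le_one₀ b1 (Finset.sum_nonneg fun _ _ => norm_nonneg _) b2)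
    (Finset.sum_nonneg fun _ _ => norm_nonneg _) b3) (Finset.sum_nonneg fun _ _ => norm_nonneg _) b4

end main

end Pool.Agent.Y870.Z
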